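import Mathlib

/-!
# Order of vanishing and norms from an inert quadratic extension of a local domain of dimension one
-/

set_option autoImplicit false

open Module IsLocalRing

namespace Pool.C2M

theorem ord_ringEquiv {R : Type*} [CommRing R] (e : R ≃+* R) (x : R) :
    Ring.ord R (e x) = Ring.ord R x := by
  unfold Ring.ord
  rw [Module.length_quotient, Module.length_quotient]
  have h : Ideal.span {x} = e.idealComapOrderIso (Ideal.span {e x}) := by
    ext y
    rw [RingEquiv.idealComapOrderIso_apply, Ideal.mem_comap, Ideal.mem_span_singleton,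
      Ideal.mem_span_singleton]
    constructor
    · intro h
      exact map_dvd e h
    · rintro ⟨z, hz⟩
      refine ⟨e.symm z, e.injective ?_⟩
      rw [map_mul, RingEquiv.apply_symm_apply]
      exact hz
  rw [h]
  exact (Order.coheight_orderIso e.idealComapOrderIso (Ideal.span {e x})).symm

section Quad

variable {D : Type*} [CommRing D] [IsLocalRing D] {b : D}

theorem sq_sub_mem_iff (hb : ∀ r : D, r ^ 2 - b ∉ maximalIdeal D) (x y : D) :
    x ^ 2 - b * y ^ 2 ∈ maximalIdeal D ↔ x ∈ maximalIdeal D ∧ y ∈ maximalIdeal D := by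
  constructor
  · intro h
    by_cases hy : y ∈ maximalIdeal D
    · refine ⟨?_, hy⟩
      have h1 : x ^ 2 ∈ maximalIdeal D := by
        have e1 : x ^ 2 = (x ^ 2 - b * y ^ 2) + (b * y) * y := by ring
        rw [e1]
        exact Ideal.add_mem _ h (Ideal.mul_mem_left _ _ hy)
      exact (Ideal.IsPrime.mem_of_pow_mem inferInstance 2 h1)
    · exfalso
      rw [mem_maximalIdeal, mem_nonunits_iff, not_not] at hy
      obtain ⟨y', hy'⟩ := hy.exists_right_inv
      refine hb (x * y') ?_
      have e1 : (x * y') ^ 2 - b = y' ^ 2 * (x ^ 2 - b * y ^ 2) := by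
        linear_combination b * (1 + y * y') * hy'
      rw [e1]
      exact Ideal.mul_mem_left _ _ h
  · rintro ⟨hx, hy⟩
    have e1 : x ^ 2 - b * y ^ 2 = x * x - (b * y) * y := by ring
    rw [e1]
    exact Ideal.sub_mem _ (Ideal.mul_mem_left _ _ hx) (Ideal.mul_mem_left _ _ hy)

theorem nonunit_iff (hb : ∀ r : D, r ^ 2 - b ∉ maximalIdeal D) (z : QuadraticAlgebra D b 0) :
    z ∈ nonunits (QuadraticAlgebra D b 0) ↔ z.re ∈ maximalIdeal D ∧ z.im ∈ maximalIdeal D := by
  rw [← sq_sub_mem_iff hb, mem_nonunits_iff, QuadraticAlgebra.isUnit_iff_norm_isUnit,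
    mem_maximalIdeal, mem_nonunits_iff, QuadraticAlgebra.norm_def]
  have e1 : z.re * z.re + 0 * z.re * z.im - b * z.im * z.im = z.re ^ 2 - b * z.im ^ 2 := by ring
  rw [e1]

theorem isLocalRing_quad (hb : ∀ r : D, r ^ 2 - b ∉ maximalIdeal D) :
    IsLocalRing (QuadraticAlgebra D b 0) := by
  refine IsLocalRing.of_nonunits_add fun z w hz hw => ?_
  rw [nonunit_iff hb] at hz hw ⊢
  exact ⟨Ideal.add_mem _ hz.1 hw.1, Ideal.add_mem _ hz.2 hw.2⟩

theorem ord_algebraMap (hb : ∀ r : D, r ^ 2 - b ∉ maximalIdeal D) (n : D) :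
    Ring.ord (QuadraticAlgebra D b 0) (algebraMap D (QuadraticAlgebra D b 0) n) =
      Ring.ord D n := by
  haveI := isLocalRing_quad hb
  haveI : IsLocalHom (algebraMap D (QuadraticAlgebra D b 0)) := by
    constructor
    intro x hx
    rw [QuadraticAlgebra.isUnit_iff_norm_isUnit, QuadraticAlgebra.norm_algebraMap] at hx
    exact (isUnit_pow_iff two_ne_zero).1 hx
  have hm : (maximalIdeal D).map (algebraMap D (QuadraticAlgebra D b 0)) =
      maximalIdeal (QuadraticAlgebra D b 0) := by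
    apply le_antisymm
    · rw [Ideal.map_le_iff_le_comap]
      intro x hx
      rw [Ideal.mem_comap, mem_maximalIdeal, nonunit_iff hb]
      exact ⟨hx, Ideal.zero_mem _⟩
    · intro z hz
      rw [mem_maximalIdeal, nonunit_iff hb] at hz
      have e1 : z = algebraMap D (QuadraticAlgebra D b 0) z.re +
          QuadraticAlgebra.omega * algebraMap D (QuadraticAlgebra D b 0) z.im := by
        ext <;> simp
      rw [e1]
      exact Ideal.add_mem _ (Ideal.mem_map_of_mem _ hz.1)
        (Ideal.mul_mem_left _ _ (Ideal.mem_map_of_mem _ hz.2))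
  have h1 := IsLocalRing.length_baseChange D (QuadraticAlgebra D b 0) (D ⧸ Ideal.span {n})
  have h2 : Module.length (QuadraticAlgebra D b 0) (QuadraticAlgebra D b 0 ⧸
      (maximalIdeal D).map (algebraMap D (QuadraticAlgebra D b 0))) = 1 := by
    rw [hm, Module.length_eq_one_iff]
    exact isSimpleModule_iff_quot_maximal.2 ⟨_, maximalIdeal.isMaximal _, ⟨LinearEquiv.refl _ _⟩⟩
  rw [h2, mul_one, ← (Algebra.TensorProduct.quotIdealMapEquivTensorQuot
    (QuadraticAlgebra D b 0) (Ideal.span {n})).toLinearEquiv.length_eq, Ideal.map_span,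
    Set.image_singleton] at h1
  exact h1

/-- `D` a noetherian local domain of dimension at most one, `b` a nonsquare in the residue field; if `a <> 0` is a norm
from the fraction field of `D[sqrt b]`, then `a` has even order of vanishing. -/
theorem ord_even_of_norm [IsDomain D] [IsNoetherianRing D] [Ring.KrullDimLE 1 D]
    (hb : ∀ r : D, r ^ 2 - b ∉ maximalIdeal D) {a u v d : D} (ha : a ≠ 0) (hd : d ≠ 0)
    (h : u ^ 2 - b * v ^ 2 = a * d ^ 2) : ∃ n : ℕ, Ring.ord D a = (2 * n : ℕ) := by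
  set c : QuadraticAlgebra D b 0 := ⟨u, v⟩ with hc
  have hn : c.norm = a * d ^ 2 := by
    rw [QuadraticAlgebra.norm_def, ← h, hc]
    ring
  have hn0 : c.norm ≠ 0 := by
    rw [hn]
    exact mul_ne_zero ha (pow_ne_zero 2 hd)
  have hcn : c ∈ nonZeroDivisors (QuadraticAlgebra D b 0) :=
    QuadraticAlgebra.norm_mem_nonZeroDivisors_iff.1 (mem_nonZeroDivisors_of_ne_zero hn0)
  have hsn : star c ∈ nonZeroDivisors (QuadraticAlgebra D b 0) :=
    QuadraticAlgebra.star_mem_nonZeroDivisors hcn
  have h1 := ord_algebraMap hb c.norm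
  rw [QuadraticAlgebra.algebraMap_norm_eq_mul_star, Ring.ord_mul _ hsn] at h1
  have h2 : Ring.ord (QuadraticAlgebra D b 0) (star c) = Ring.ord (QuadraticAlgebra D b 0) c :=
    ord_ringEquiv (starRingAut (R := QuadraticAlgebra D b 0)) c
  rw [h2, hn, Ring.ord_mul' D (mem_nonZeroDivisors_of_ne_zero ha),
    Ring.ord_pow (mem_nonZeroDivisors_of_ne_zero hd)] at h1
  obtain ⟨n1, hn1⟩ := ENat.ne_top_iff_exists.1 (Ring.ord_ne_top (R := D)
    (mem_nonZeroDivisors_of_ne_zero ha))
  obtain ⟨n2, hn2⟩ := ENat.ne_top_iff_exists.1 (Ring.ord_ne_top (R := D)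
    (mem_nonZeroDivisors_of_ne_zero hd))
  rw [← hn1, ← hn2] at h1
  have h3 : Ring.ord (QuadraticAlgebra D b 0) c ≠ ⊤ := by
    intro h0
    rw [h0, top_add] at h1
    exact absurd h1.symm (by
      rw [nsmul_eq_mul]
      exact_mod_cast ENat.coe_ne_top _)
  obtain ⟨n3, hn3⟩ := ENat.ne_top_iff_exists.1 h3
  rw [← hn3, nsmul_eq_mul] at h1
  have h4 : n3 + n3 = n1 + 2 * n2 := by exact_mod_cast h1
  refine ⟨n3 - n2, ?_⟩
  rw [← hn1]
  congr 1
  omega

end Quad

end Pool.C2M
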