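import Mathlib
import Pool.Agent.C2M.Ord

/-!
# Claim A: parity of the intersection number of a split prime with a ramification divisor
-/

set_option autoImplicit false

open Module IsLocalRing

namespace Pool.C2M

/-- Lengths of `(A/Q)/P` and `(A/P)/Q` agree. -/
theorem ord_comm {A : Type*} [CommRing A] (P Q : A) :
    Ring.ord (A ⧸ Ideal.span {P}) (Ideal.Quotient.mk (Ideal.span {P}) Q) =
      Ring.ord (A ⧸ Ideal.span {Q}) (Ideal.Quotient.mk (Ideal.span {Q}) P) := by
  unfold Ring.ord
  rw [← Module.length_eq_of_surjective (S := A) (R := A ⧸ Ideal.span {P})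
      Ideal.Quotient.mk_surjective,
    ← Module.length_eq_of_surjective (S := A) (R := A ⧸ Ideal.span {Q})
      Ideal.Quotient.mk_surjective]
  have h := (DoubleQuot.quotQuotEquivCommₐ A (Ideal.span {P}) (Ideal.span {Q})).toLinearEquiv
  rw [Ideal.map_span, Ideal.map_span, Set.image_singleton, Set.image_singleton] at h
  exact h.length_eq

theorem ord_of_span_maximal {E : Type*} [CommRing E] {q : E} (hq : (Ideal.span {q}).IsMaximal) :
    Ring.ord E q = 1 := by
  rw [Ring.ord, Module.length_eq_one_iff]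
  exact isSimpleModule_iff_quot_maximal.2 ⟨_, hq, ⟨LinearEquiv.refl _ _⟩⟩

theorem claimA_local {A : Type*} [CommRing A] [IsLocalRing A] [IsNoetherianRing A]
    {P Q q a1 b w t u v d : A} {e : ℕ} (hP : Prime P) (hQ : Prime Q) (hq : ¬ Q ∣ q)
    (hm : maximalIdeal A = Ideal.span {Q, q}) (ha1 : IsUnit a1)
    (hb : ∀ r, r ^ 2 - b ∉ maximalIdeal A) (hw : IsUnit w) (hPe : P = q ^ e * w + Q * t)
    (hd : ¬ P ∣ d) (hPQ : ¬ P ∣ Q) (hs : P ∣ u ^ 2 - b * v ^ 2 - Q * a1 * d ^ 2) : Even e := by
  -- the ring `E = A/Q`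
  haveI hQp : (Ideal.span {Q}).IsPrime := (Ideal.span_singleton_prime hQ.ne_zero).2 hQ
  haveI hPp : (Ideal.span {P}).IsPrime := (Ideal.span_singleton_prime hP.ne_zero).2 hP
  have hq0 : Ideal.Quotient.mk (Ideal.span {Q}) q ≠ 0 := by
    rw [Ne, Ideal.Quotient.eq_zero_iff_mem, Ideal.mem_span_singleton]
    exact hq
  have hqm : (Ideal.span {Ideal.Quotient.mk (Ideal.span {Q}) q}).IsMaximal := by
    have h1 : (Ideal.map (Ideal.Quotient.mk (Ideal.span {Q})) (maximalIdeal A)).IsMaximal := by
      refine (Ideal.map_eq_top_or_isMaximal_of_surjective (Ideal.Quotient.mk (Ideal.span {Q}))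
        Ideal.Quotient.mk_surjective (maximalIdeal.isMaximal A)).resolve_left ?_
      intro h2
      rw [Ideal.eq_top_iff_one, ← map_one (Ideal.Quotient.mk (Ideal.span {Q})),
        Ideal.mem_map_iff_of_surjective _ Ideal.Quotient.mk_surjective] at h2
      obtain ⟨x, hx, hx1⟩ := h2
      rw [Ideal.Quotient.eq, Ideal.mem_span_singleton] at hx1
      have h3 : x - 1 ∈ maximalIdeal A := by
        obtain ⟨y, hy⟩ := hx1
        rw [hy, hm]
        exact Ideal.mul_mem_right _ _ (Ideal.subset_span (Set.mem_insert _ _))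
      have h4 : (1 : A) ∈ maximalIdeal A := by
        have e1 : (1 : A) = x - (x - 1) := by ring
        rw [e1]
        exact Ideal.sub_mem _ hx h3
      exact (Ideal.ne_top_iff_one _).1 (maximalIdeal.isMaximal A).ne_top h4
    have h5 : Ideal.map (Ideal.Quotient.mk (Ideal.span {Q})) (maximalIdeal A) =
        Ideal.span {Ideal.Quotient.mk (Ideal.span {Q}) q} := by
      rw [hm, Ideal.map_span, Set.image_pair]
      have h6 : Ideal.Quotient.mk (Ideal.span {Q}) Q = 0 := by
        rw [Ideal.Quotient.eq_zero_iff_mem]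
        exact Ideal.mem_span_singleton_self Q
      rw [h6, Ideal.span_insert_zero]
    rw [h5] at h1
    exact h1
  have hordE : Ring.ord (A ⧸ Ideal.span {Q}) (Ideal.Quotient.mk (Ideal.span {Q}) P) = (e : ℕ) := by
    have h1 : Ideal.Quotient.mk (Ideal.span {Q}) P =
        (Ideal.Quotient.mk (Ideal.span {Q}) q) ^ e * Ideal.Quotient.mk (Ideal.span {Q}) w := by
      have h6 : Ideal.Quotient.mk (Ideal.span {Q}) Q = 0 := by
        rw [Ideal.Quotient.eq_zero_iff_mem]
        exact Ideal.mem_span_singleton_self Q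
      rw [hPe, map_add, map_mul, map_mul, map_pow, h6, zero_mul, add_zero]
    rw [h1, Ring.ord_mul_of_isUnit_right (hw.map _), Ring.ord_pow
      (mem_nonZeroDivisors_of_ne_zero hq0), ord_of_span_maximal hqm, nsmul_eq_mul, mul_one]
  have hordD : Ring.ord (A ⧸ Ideal.span {P}) (Ideal.Quotient.mk (Ideal.span {P}) (Q * a1)) =
      (e : ℕ) := by
    rw [map_mul, Ring.ord_mul_of_isUnit_right (ha1.map _), ord_comm, hordE]
  rcases Nat.eq_zero_or_pos e with he | he
  · rw [he]
    exact Even.zero
  -- `D = A/P` is local of dimension at most one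
  haveI : Nontrivial (A ⧸ Ideal.span {P}) := Ideal.Quotient.nontrivial_iff.2 hPp.ne_top
  haveI : IsLocalRing (A ⧸ Ideal.span {P}) :=
    IsLocalRing.of_surjective' (Ideal.Quotient.mk (Ideal.span {P})) Ideal.Quotient.mk_surjective
  have hmk : ∀ x : A, Ideal.Quotient.mk (Ideal.span {P}) x ∈
      maximalIdeal (A ⧸ Ideal.span {P}) → x ∈ maximalIdeal A := by
    intro x hx
    by_contra h
    rw [mem_maximalIdeal, mem_nonunits_iff, not_not] at h
    rw [mem_maximalIdeal, mem_nonunits_iff] at hx
    exact hx (h.map _)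
  have hmin : maximalIdeal (A ⧸ Ideal.span {P}) ∈
      (Ideal.span {Ideal.Quotient.mk (Ideal.span {P}) Q}).minimalPrimes := by
    refine ⟨⟨(maximalIdeal.isMaximal _).isPrime, ?_⟩, ?_⟩
    · rw [Ideal.span_singleton_le_iff_mem]
      rw [mem_maximalIdeal, mem_nonunits_iff]
      intro h1
      have h2 := Ring.ord_of_isUnit h1
      rw [ord_comm, hordE] at h2
      have : e = 0 := by exact_mod_cast h2
      omega
    · rintro p ⟨hp1, hp2⟩ _
      rw [Ideal.span_singleton_le_iff_mem] at hp2
      haveI := hp1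
      have hc : (Ideal.comap (Ideal.Quotient.mk (Ideal.span {P})) p).IsPrime :=
        Ideal.comap_isPrime _ p
      have hQc : Q ∈ Ideal.comap (Ideal.Quotient.mk (Ideal.span {P})) p := hp2
      have hPc : P ∈ Ideal.comap (Ideal.Quotient.mk (Ideal.span {P})) p := by
        rw [Ideal.mem_comap]
        have h6 : Ideal.Quotient.mk (Ideal.span {P}) P = 0 := by
          rw [Ideal.Quotient.eq_zero_iff_mem]
          exact Ideal.mem_span_singleton_self P
        rw [h6]
        exact Ideal.zero_mem _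
      have hqc : q ∈ Ideal.comap (Ideal.Quotient.mk (Ideal.span {P})) p := by
        have h7 : q ^ e * w ∈ Ideal.comap (Ideal.Quotient.mk (Ideal.span {P})) p := by
          have e1 : q ^ e * w = P - Q * t := by rw [hPe]; ring
          rw [e1]
          exact Ideal.sub_mem _ hPc (Ideal.mul_mem_right _ _ hQc)
        rcases hc.mem_or_mem h7 with h8 | h8
        · exact hc.mem_of_pow_mem e h8
        · exact absurd (Ideal.eq_top_of_isUnit_mem _ h8 hw) hc.ne_top
      have hle : maximalIdeal A ≤ Ideal.comap (Ideal.Quotient.mk (Ideal.span {P})) p := by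
        rw [hm, Ideal.span_le]
        intro z hz
        rcases hz with hz | hz
        · rw [hz]
          exact hQc
        · rw [Set.mem_singleton_iff] at hz
          rw [hz]
          exact hqc
      intro z hz
      obtain ⟨z', rfl⟩ := Ideal.Quotient.mk_surjective z
      exact hle (hmk z' hz)
  haveI : Ring.KrullDimLE 1 (A ⧸ Ideal.span {P}) := by
    have h1 := Ideal.height_le_one_of_isPrincipal_of_mem_minimalPrimes _ _ hmin
    rw [Ring.KrullDimLE, Order.krullDimLE_iff]
    have h2 : ringKrullDim (A ⧸ Ideal.span {P}) ≤ 1 := by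
      rw [← IsLocalRing.maximalIdeal_height_eq_ringKrullDim]
      exact_mod_cast h1
    exact h2
  have hb' : ∀ r : A ⧸ Ideal.span {P}, r ^ 2 - Ideal.Quotient.mk (Ideal.span {P}) b ∉
      maximalIdeal (A ⧸ Ideal.span {P}) := by
    intro r hr
    obtain ⟨r', rfl⟩ := Ideal.Quotient.mk_surjective r
    rw [← map_pow, ← map_sub] at hr
    exact hb r' (hmk _ hr)
  have hQ0 : Ideal.Quotient.mk (Ideal.span {P}) (Q * a1) ≠ 0 := by
    rw [Ne, Ideal.Quotient.eq_zero_iff_mem, Ideal.mem_span_singleton]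
    intro h
    rcases hP.dvd_or_dvd h with h | h
    · exact hPQ h
    · exact hP.not_unit (isUnit_of_dvd_unit h ha1)
  have hd0 : Ideal.Quotient.mk (Ideal.span {P}) d ≠ 0 := by
    rw [Ne, Ideal.Quotient.eq_zero_iff_mem, Ideal.mem_span_singleton]
    exact hd
  have hrel : Ideal.Quotient.mk (Ideal.span {P}) u ^ 2 - Ideal.Quotient.mk (Ideal.span {P}) b *
      Ideal.Quotient.mk (Ideal.span {P}) v ^ 2 = Ideal.Quotient.mk (Ideal.span {P}) (Q * a1) *
      Ideal.Quotient.mk (Ideal.span {P}) d ^ 2 := by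
    have h1 : Ideal.Quotient.mk (Ideal.span {P}) (u ^ 2 - b * v ^ 2 - Q * a1 * d ^ 2) = 0 := by
      rw [Ideal.Quotient.eq_zero_iff_mem, Ideal.mem_span_singleton]
      exact hs
    simp only [map_sub, map_mul, map_pow] at h1 ⊢
    exact sub_eq_zero.1 h1
  obtain ⟨n, hn⟩ := ord_even_of_norm hb' hQ0 hd0 hrel
  rw [hordD] at hn
  have : e = 2 * n := by exact_mod_cast hn
  exact ⟨n, by omega⟩

end Pool.C2M
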