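import Mathlib
import Pool.Agent.C2M.ClaimA

/-!
# Claim A, global form
-/

set_option autoImplicit false

open Module IsLocalRing

namespace Pool.C2M

section

variable {A : Type*} [CommRing A] [IsDomain A] (y : Ideal A) [y.IsPrime]

theorem prime_loc {P : A} (hP : Prime P) (hPy : P ∈ y) :
    Prime (algebraMap A (Localization.AtPrime y) P) := by
  have hP0 : algebraMap A (Localization.AtPrime y) P ≠ 0 := by
    intro h
    rw [← map_zero (algebraMap A (Localization.AtPrime y))] at h
    exact hP.ne_zero (IsLocalization.injective (Localization.AtPrime y)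
      (Ideal.primeCompl_le_nonZeroDivisors y) h)
  haveI hPp : (Ideal.span {P}).IsPrime := (Ideal.span_singleton_prime hP.ne_zero).2 hP
  have h1 : (Ideal.map (algebraMap A (Localization.AtPrime y)) (Ideal.span {P})).IsPrime := by
    refine IsLocalization.isPrime_of_isPrime_disjoint y.primeCompl _ _ hPp ?_
    rw [Set.disjoint_left]
    intro x hx hx2
    refine hx ?_
    obtain ⟨z, hz⟩ := Ideal.mem_span_singleton.1 hx2
    rw [hz]
    exact Ideal.mul_mem_right _ _ hPy
  rw [Ideal.map_span, Set.image_singleton] at h1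
  exact (Ideal.span_singleton_prime hP0).1 h1

theorem not_dvd_loc {P d : A} (hP : Prime P) (hPy : P ∈ y) (hd : ¬ P ∣ d) :
    ¬ algebraMap A (Localization.AtPrime y) P ∣ algebraMap A (Localization.AtPrime y) d := by
  rintro ⟨z, hz⟩
  obtain ⟨x, s, rfl⟩ := IsLocalization.exists_mk'_eq y.primeCompl z
  have h1 : algebraMap A (Localization.AtPrime y) (d * s) =
      algebraMap A (Localization.AtPrime y) (P * x) := by
    rw [map_mul, hz, map_mul, mul_assoc, IsLocalization.mk'_spec]
  have h2 : d * s = P * x := IsLocalization.injective (Localization.AtPrime y)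
      (Ideal.primeCompl_le_nonZeroDivisors y) h1
  rcases hP.dvd_or_dvd ⟨x, h2⟩ with h3 | h3
  · exact hd h3
  · obtain ⟨z, hz⟩ := h3
    refine s.2 ?_
    rw [hz]
    exact Ideal.mul_mem_right _ _ hPy

end

/-- **Claim A.** `A` a noetherian domain, `P`, `Q` prime elements, `(Q,q)` a maximal ideal, `b` not a square modulo
it, `a = Q a1` with `a1` a unit at it, `a` a norm from `kappa(P)(sqrt b)`.  Then the order `e` of `P mod Q` at `q` is even. -/
theorem claimA {A : Type*} [CommRing A] [IsDomain A] [IsNoetherianRing A]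
    {P Q q a1 b w t u v d : A} {e : ℕ} (hP : Prime P) (hQ : Prime Q) (hq : ¬ Q ∣ q)
    (hy : (Ideal.span {Q, q}).IsMaximal) (ha1 : a1 ∉ Ideal.span {Q, q})
    (hb : ∀ r : A, r ^ 2 - b ∉ Ideal.span {Q, q}) (hw : w ∉ Ideal.span {Q, q})
    (hPe : P = q ^ e * w + Q * t) (hd : ¬ P ∣ d)
    (hs : P ∣ u ^ 2 - b * v ^ 2 - Q * a1 * d ^ 2) : Even e := by
  rcases Nat.eq_zero_or_pos e with he | he
  · rw [he]
    exact Even.zero
  set y : Ideal A := Ideal.span {Q, q} with hydef
  haveI := hy
  haveI hyp : y.IsPrime := hy.isPrime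
  have hQy : Q ∈ y := Ideal.subset_span (Set.mem_insert _ _)
  have hqy : q ∈ y := Ideal.subset_span (Set.mem_insert_of_mem _ rfl)
  have hPy : P ∈ y := by
    rw [hPe]
    refine Ideal.add_mem _ (Ideal.mul_mem_right _ _ ?_) (Ideal.mul_mem_right _ _ hQy)
    exact Ideal.pow_mem_of_mem _ hqy _ he
  have hPQ : ¬ P ∣ Q := by
    rintro ⟨s, hs⟩
    rcases hQ.dvd_or_dvd (⟨1, by rw [← hs, mul_one]⟩ : Q ∣ P * s) with h | h
    · have h1 : Q ∣ q ^ e * w := by
        have e1 : q ^ e * w = P - Q * t := by rw [hPe]; ring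
        rw [e1]
        exact dvd_sub h (dvd_mul_right _ _)
      rcases hQ.dvd_or_dvd h1 with h2 | h2
      · exact hq (hQ.dvd_of_dvd_pow h2)
      · obtain ⟨z, hz⟩ := h2
        refine hw ?_
        rw [hz]
        exact Ideal.mul_mem_right _ _ hQy
    · obtain ⟨s', rfl⟩ := h
      have h1 : Q * (P * s') = Q * 1 := by linear_combination -hs
      have h2 := mul_left_cancel₀ hQ.ne_zero h1
      exact hP.not_unit (isUnit_iff_exists_inv.2 ⟨s', h2⟩)
  have hunit : ∀ x : A, x ∉ y → IsUnit (algebraMap A (Localization.AtPrime y) x) := fun x hx =>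
    IsLocalization.map_units (M := y.primeCompl) (Localization.AtPrime y) ⟨x, hx⟩
  have hmax : ∀ x : A, algebraMap A (Localization.AtPrime y) x ∈
      maximalIdeal (Localization.AtPrime y) ↔ x ∈ y := fun x =>
    IsLocalization.AtPrime.to_map_mem_maximal_iff (Localization.AtPrime y) y x
  refine claimA_local (A := Localization.AtPrime y)
    (P := algebraMap A (Localization.AtPrime y) P)
    (Q := algebraMap A (Localization.AtPrime y) Q)
    (q := algebraMap A (Localization.AtPrime y) q)
    (a1 := algebraMap A (Localization.AtPrime y) a1)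
    (b := algebraMap A (Localization.AtPrime y) b)
    (w := algebraMap A (Localization.AtPrime y) w)
    (t := algebraMap A (Localization.AtPrime y) t)
    (u := algebraMap A (Localization.AtPrime y) u)
    (v := algebraMap A (Localization.AtPrime y) v)
    (d := algebraMap A (Localization.AtPrime y) d)
    (prime_loc y hP hPy) (prime_loc y hQ hQy) (not_dvd_loc y hQ hQy hq) ?_ (hunit a1 ha1) ?_
    (hunit w hw) ?_ (not_dvd_loc y hP hPy hd) (not_dvd_loc y hP hPy hPQ) ?_
  · rw [← IsLocalization.AtPrime.map_eq_maximalIdeal y]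
    have h1 := Ideal.map_span (algebraMap A (Localization.AtPrime y)) {Q, q}
    rw [Set.image_pair] at h1
    exact h1
  · intro r hr
    obtain ⟨x, s, rfl⟩ := IsLocalization.exists_mk'_eq y.primeCompl r
    have h1 : algebraMap A (Localization.AtPrime y) (x ^ 2 - b * s ^ 2) ∈
        maximalIdeal (Localization.AtPrime y) := by
      have e1 : algebraMap A (Localization.AtPrime y) (x ^ 2 - b * s ^ 2) =
          algebraMap A (Localization.AtPrime y) s ^ 2 *
            (IsLocalization.mk' (Localization.AtPrime y) x s ^ 2 -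
              algebraMap A (Localization.AtPrime y) b) := by
        have e2 := IsLocalization.mk'_spec (Localization.AtPrime y) x s
        rw [map_sub, map_mul, map_pow, map_pow, ← e2]
        ring
      rw [e1]
      exact Ideal.mul_mem_left _ _ hr
    rw [hmax] at h1
    -- invert `s` modulo `y`
    obtain ⟨s', i, hi, hs'⟩ := hy.exists_inv s.2
    refine hb (x * s') ?_
    have e1 : (x * s') ^ 2 - b = s' ^ 2 * (x ^ 2 - b * s ^ 2) - (b * (1 + s' * s)) * i := by
      have e2 : s' * s = 1 - i := by rw [← hs']; ring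
      linear_combination (b * (1 + s' * s)) * e2
    rw [e1]
    exact Ideal.sub_mem _ (Ideal.mul_mem_left _ _ h1) (Ideal.mul_mem_left _ _ hi)
  · rw [← map_pow, ← map_mul, ← map_mul, ← map_add, ← hPe]
  · obtain ⟨z, hz⟩ := hs
    refine ⟨algebraMap A (Localization.AtPrime y) z, ?_⟩
    have h1 := congrArg (algebraMap A (Localization.AtPrime y)) hz
    rw [map_sub, map_sub, map_mul, map_mul, map_mul, map_mul, map_pow, map_pow, map_pow] at h1
    exact h1

/-- Claim A with multiplicities. -/
theorem claimA_mult {A : Type*} [CommRing A] [IsDomain A] [IsNoetherianRing A]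
    {P Q a1 b u v d : A} (hP : Prime P) (hQ : Prime Q) (hPQ : ¬ Q ∣ P)
    (q : A ⧸ Ideal.span {Q}) (hq : Prime q) (hqm : (Ideal.span {q}).IsMaximal)
    (ha1 : ¬ q ∣ Ideal.Quotient.mk _ a1)
    (hb : ∀ r : A ⧸ Ideal.span {Q}, ¬ q ∣ r ^ 2 - Ideal.Quotient.mk _ b) (hd : ¬ P ∣ d)
    (hs : P ∣ u ^ 2 - b * v ^ 2 - Q * a1 * d ^ 2) :
    Even (multiplicity q (Ideal.Quotient.mk (Ideal.span {Q}) P)) := by
  haveI hQp : (Ideal.span {Q}).IsPrime := (Ideal.span_singleton_prime hQ.ne_zero).2 hQ
  obtain ⟨q0, rfl⟩ := Ideal.Quotient.mk_surjective q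
  have hP0 : Ideal.Quotient.mk (Ideal.span {Q}) P ≠ 0 := by
    rw [Ne, Ideal.Quotient.eq_zero_iff_mem, Ideal.mem_span_singleton]
    exact hPQ
  have hq0 : ¬ Q ∣ q0 := by
    intro h
    refine hq.ne_zero ?_
    rw [Ideal.Quotient.eq_zero_iff_mem, Ideal.mem_span_singleton]
    exact h
  have hmem : ∀ x : A, x ∈ Ideal.span {Q, q0} ↔
      Ideal.Quotient.mk (Ideal.span {Q}) q0 ∣ Ideal.Quotient.mk (Ideal.span {Q}) x := by
    intro x
    rw [Ideal.mem_span_pair]
    constructor
    · rintro ⟨a, b, rfl⟩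
      refine ⟨Ideal.Quotient.mk (Ideal.span {Q}) b, ?_⟩
      have h6 : Ideal.Quotient.mk (Ideal.span {Q}) Q = 0 := by
        rw [Ideal.Quotient.eq_zero_iff_mem]
        exact Ideal.mem_span_singleton_self Q
      rw [map_add, map_mul, map_mul, h6]
      ring
    · rintro ⟨z, hz⟩
      obtain ⟨z, rfl⟩ := Ideal.Quotient.mk_surjective z
      rw [← map_mul, Ideal.Quotient.eq, Ideal.mem_span_singleton] at hz
      obtain ⟨c, hc⟩ := hz
      exact ⟨c, z, by linear_combination -hc⟩
  have hy : (Ideal.span {Q, q0}).IsMaximal := by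
    have h1 := Ideal.comap_isMaximal_of_surjective (Ideal.Quotient.mk (Ideal.span {Q}))
      Ideal.Quotient.mk_surjective (K := Ideal.span {Ideal.Quotient.mk (Ideal.span {Q}) q0})
    have h2 : Ideal.comap (Ideal.Quotient.mk (Ideal.span {Q}))
        (Ideal.span {Ideal.Quotient.mk (Ideal.span {Q}) q0}) = Ideal.span {Q, q0} := by
      ext x
      rw [Ideal.mem_comap, Ideal.mem_span_singleton, hmem]
    rw [h2] at h1
    exact h1
  have hfin : FiniteMultiplicity (Ideal.Quotient.mk (Ideal.span {Q}) q0)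
      (Ideal.Quotient.mk (Ideal.span {Q}) P) :=
    FiniteMultiplicity.of_not_isUnit hq.not_unit hP0
  obtain ⟨w, hw, hw2⟩ := hfin.exists_eq_pow_mul_and_not_dvd
  obtain ⟨w, rfl⟩ := Ideal.Quotient.mk_surjective w
  rw [← map_pow, ← map_mul, Ideal.Quotient.eq, Ideal.mem_span_singleton] at hw
  obtain ⟨t, ht⟩ := hw
  refine claimA hP hQ hq0 hy (a1 := a1) (b := b) (w := w) (t := t) (u := u) (v := v) (d := d)
    ?_ ?_ ?_ ?_ hd hs
  · rw [hmem]
    exact ha1
  · intro r
    rw [hmem, map_sub, map_pow]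
    exact hb _
  · rw [hmem]
    exact hw2
  · linear_combination ht

end Pool.C2M
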