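import Mathlib

/-!
# The norm form of a quaternion algebra, Chinese remainders and squarefree parts over `L[X]`
-/

set_option autoImplicit false

open Polynomial

namespace Pool.C2M

/-- the norm form `<1,-a,-b,ab>` -/
def nf {R : Type*} [CommRing R] (a b : R) (p : Fin 4 → R) : R :=
  p 0 ^ 2 - a * p 1 ^ 2 - b * p 2 ^ 2 + a * b * p 3 ^ 2

/-- product of the quaternions `p0 + p1 i + p2 j + p3 ij`, `i^2 = a`, `j^2 = b`, `ji = -ij` -/
def qm {R : Type*} [CommRing R] (a b : R) (p q : Fin 4 → R) : Fin 4 → R :=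
  ![p 0 * q 0 + a * (p 1 * q 1) + b * (p 2 * q 2) - a * b * (p 3 * q 3),
    p 0 * q 1 + p 1 * q 0 - b * (p 2 * q 3) + b * (p 3 * q 2),
    p 0 * q 2 + p 2 * q 0 + a * (p 1 * q 3) - a * (p 3 * q 1),
    p 0 * q 3 + p 3 * q 0 + p 1 * q 2 - p 2 * q 1]

theorem nf_qm {R : Type*} [CommRing R] (a b : R) (p q : Fin 4 → R) :
    nf a b (qm a b p q) = nf a b p * nf a b q := by
  simp only [nf, qm, Matrix.cons_val]
  ring

theorem nf_smul {R : Type*} [CommRing R] (a b t : R) (p : Fin 4 → R) :
    nf a b (fun i => t * p i) = t ^ 2 * nf a b p := by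
  simp only [nf]
  ring

theorem nf_zero {R : Type*} [CommRing R] (a b : R) : nf a b (0 : Fin 4 → R) = 0 := by
  simp [nf]

theorem nf_map {R S : Type*} [CommRing R] [CommRing S] (f : R →+* S) (a b : R) (p : Fin 4 → R) :
    f (nf a b p) = nf (f a) (f b) (fun i => f (p i)) := by
  simp [nf, map_sub, map_add, map_mul, map_pow]

theorem nf_congr {R : Type*} [CommRing R] (a b Q : R) (p q : Fin 4 → R) (h : ∀ i, Q ∣ p i - q i) :
    Q ∣ nf a b p - nf a b q := by
  have e : nf a b p - nf a b q = (p 0 - q 0) * (p 0 + q 0) - a * ((p 1 - q 1) * (p 1 + q 1)) -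
      b * ((p 2 - q 2) * (p 2 + q 2)) + a * b * ((p 3 - q 3) * (p 3 + q 3)) := by
    simp only [nf]
    ring
  rw [e]
  refine dvd_add (dvd_sub (dvd_sub ?_ ?_) ?_) ?_
  · exact (h 0).mul_right _
  · exact ((h 1).mul_right _).mul_left _
  · exact ((h 2).mul_right _).mul_left _
  · exact ((h 3).mul_right _).mul_left _

section crt

variable {R : Type*} [CommRing R]

theorem crt_one (s : Finset R) (hs : ∀ x ∈ s, ∀ y ∈ s, x ≠ y → IsCoprime x y) (t : R → R) :
    ∃ w, ∀ x ∈ s, x ∣ w - t x := by
  classical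
  induction s using Finset.induction_on with
  | empty => exact ⟨0, by simp⟩
  | insert x s hx ih =>
    obtain ⟨w, hw⟩ := ih fun y hy z hz => hs y (Finset.mem_insert_of_mem hy) z
      (Finset.mem_insert_of_mem hz)
    have hc : IsCoprime x (∏ y ∈ s, y) := by
      refine IsCoprime.prod_right fun y hy => hs x (Finset.mem_insert_self _ _) y
        (Finset.mem_insert_of_mem hy) ?_
      rintro rfl
      exact hx hy
    obtain ⟨u, v, huv⟩ := hc
    refine ⟨w * (u * x) + t x * (v * ∏ y ∈ s, y), fun y hy => ?_⟩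
    rcases Finset.mem_insert.1 hy with rfl | hy
    · have e : w * (u * y) + t y * (v * ∏ z ∈ s, z) - t y = y * (u * (w - t y)) := by
        linear_combination t y * huv
      rw [e]
      exact dvd_mul_right _ _
    · have e : w * (u * x) + t x * (v * ∏ z ∈ s, z) - t y
          = (w - t y) + (∏ z ∈ s, z) * (v * (t x - w)) := by
        linear_combination w * huv
      rw [e]
      exact dvd_add (hw y hy) ((Finset.dvd_prod_of_mem _ hy).mul_right _)

end crt

variable {L : Type*} [Field L]

theorem dvd_of_sqf {m x : L[X]} (hm : Squarefree m)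
    (h : ∀ Q : L[X], Irreducible Q → Q ∣ m → Q ∣ x) : m ∣ x := by
  classical
  obtain ⟨m', hm'⟩ := EuclideanDomain.gcd_dvd_left m x
  set d := EuclideanDomain.gcd m x with hd
  have hdx : d ∣ x := EuclideanDomain.gcd_dvd_right m x
  have hm0 : m ≠ 0 := hm.ne_zero
  by_cases hu : IsUnit m'
  · rw [hm']
    obtain ⟨u, rfl⟩ := hu
    exact (Units.mul_right_dvd).2 hdx
  · exfalso
    have hm'0 : m' ≠ 0 := by
      rintro rfl
      exact hm0 (by rw [hm', mul_zero])
    obtain ⟨Q, hQ, hQm⟩ := WfDvdMonoid.exists_irreducible_factor hu hm'0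
    have h1 : Q ∣ m := hm' ▸ hQm.mul_left d
    have h2 : Q ∣ d := EuclideanDomain.dvd_gcd h1 (h Q hQ h1)
    have h3 : Q * Q ∣ m := hm' ▸ mul_dvd_mul h2 hQm
    exact hQ.not_isUnit (hm Q h3)

/-- Chinese remainders over the primes of `m`, for properties of vectors which only depend on the residues -/
theorem crt_prop {ι : Type*} (m : L[X]) (hm : m ≠ 0) (Pr : L[X] → (ι → L[X]) → Prop)
    (h1 : ∀ Q : L[X], Irreducible Q → Q ∣ m → ∃ w, Pr Q w)
    (h2 : ∀ Q w w', (∀ i, Q ∣ w' i - w i) → Pr Q w → Pr Q w')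
    (h3 : ∀ Q Q' w, Associated Q Q' → Pr Q w → Pr Q' w) :
    ∃ w, ∀ Q : L[X], Irreducible Q → Q ∣ m → Pr Q w := by
  classical
  let s : Finset L[X] := (UniqueFactorizationMonoid.normalizedFactors m).toFinset
  have hs : ∀ x ∈ s, ∀ y ∈ s, x ≠ y → IsCoprime x y := by
    intro x hx y hy hxy
    rw [Multiset.mem_toFinset] at hx hy
    have hx' := UniqueFactorizationMonoid.irreducible_of_normalized_factor x hx
    have hy' := UniqueFactorizationMonoid.irreducible_of_normalized_factor y hy
    refine (EuclideanDomain.dvd_or_coprime x y hx').resolve_left fun hd => hxy ?_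
    have ha : Associated x y := hx'.associated_of_dvd hy' hd
    have e1 := UniqueFactorizationMonoid.normalize_normalized_factor x hx
    have e2 := UniqueFactorizationMonoid.normalize_normalized_factor y hy
    rw [← e1, ← e2]
    exact normalize_eq_normalize ha.dvd ha.symm.dvd
  have ht : ∀ x : L[X], ∃ w : ι → L[X], x ∈ s → Pr x w := by
    intro x
    by_cases hx : x ∈ s
    · have hx2 : x ∈ UniqueFactorizationMonoid.normalizedFactors m := Multiset.mem_toFinset.1 hx
      obtain ⟨w, hw⟩ := h1 x (UniqueFactorizationMonoid.irreducible_of_normalized_factor x hx2)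
        (UniqueFactorizationMonoid.dvd_of_mem_normalizedFactors hx2)
      exact ⟨w, fun _ => hw⟩
    · exact ⟨0, fun h => absurd h hx⟩
  choose t ht using ht
  have hw : ∀ i : ι, ∃ w : L[X], ∀ x ∈ s, x ∣ w - t x i := fun i => crt_one s hs fun x => t x i
  choose w hw using hw
  refine ⟨w, fun Q hQ hQm => ?_⟩
  obtain ⟨x, hx, hQx⟩ := UniqueFactorizationMonoid.exists_mem_normalizedFactors_of_dvd hm hQ hQm
  have hxs : x ∈ s := Multiset.mem_toFinset.2 hx
  exact h3 x Q w hQx.symm (h2 x (t x) w (fun i => hw i x hxs) (ht x hxs))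

theorem exists_sqf_part (N : L[X]) (hN : N ≠ 0) :
    ∃ e g : L[X], Squarefree e ∧ g ≠ 0 ∧ N = e * g ^ 2 := by
  induction hn : N.natDegree using Nat.strong_induction_on generalizing N with
  | _ n ih =>
    by_cases hs : Squarefree N
    · exact ⟨N, 1, hs, one_ne_zero, by ring⟩
    · unfold Squarefree at hs
      push_neg at hs
      obtain ⟨x, ⟨M, hM⟩, hx⟩ := hs
      have hx0 : x ≠ 0 := by
        rintro rfl
        exact hN (by rw [hM]; ring)
      have hM0 : M ≠ 0 := by
        rintro rfl
        exact hN (by rw [hM]; ring)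
      have hxd : 0 < x.natDegree := by
        rw [Nat.pos_iff_ne_zero]
        intro h0
        rw [Polynomial.eq_C_of_natDegree_eq_zero h0] at hx
        apply hx
        rw [Polynomial.isUnit_C, isUnit_iff_ne_zero]
        intro h1
        apply hx0
        rw [Polynomial.eq_C_of_natDegree_eq_zero h0, h1, map_zero]
      have hd : M.natDegree < n := by
        rw [← hn, hM, Polynomial.natDegree_mul (mul_ne_zero hx0 hx0) hM0,
          Polynomial.natDegree_mul hx0 hx0]
        omega
      obtain ⟨e, g, he, hg, hMe⟩ := ih M.natDegree hd M hM0 rfl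
      exact ⟨e, x * g, he, mul_ne_zero hx0 hg, by rw [hM, hMe]; ring⟩

end Pool.C2M
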