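import Mathlib
import Pool.Agent.C2M.Form

/-!
# Totally isotropic planes modulo primes, and the parity argument
-/

set_option autoImplicit false

open Polynomial

namespace Pool.C2M

theorem plane_field {K : Type*} [Field K] (a b : K) (z : Fin 4 → K) (hz : z ≠ 0)
    (h : nf a b z = 0) :
    ∃ f : Fin 2 × Fin 4 → K, ∀ v : Fin 4 → K, ∑ i, f (0, i) * v i = 0 → ∑ i, f (1, i) * v i = 0 →
      nf a b v = 0 := by
  have key : ∀ α : K, α ^ 2 = a → ∃ f : Fin 2 × Fin 4 → K, ∀ v : Fin 4 → K,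
      ∑ i, f (0, i) * v i = 0 → ∑ i, f (1, i) * v i = 0 → nf a b v = 0 := by
    intro α hα
    refine ⟨fun x => (![![1, -α, 0, 0], ![0, 0, 1, -α]] : Fin 2 → Fin 4 → K) x.1 x.2,
      fun v h1 h2 => ?_⟩
    simp only [Fin.sum_univ_four, Matrix.cons_val] at h1 h2
    simp only [nf]
    rw [← hα]
    linear_combination (v 0 + α * v 1) * h1 - b * (v 2 + α * v 3) * h2
  simp only [nf] at h
  by_cases hD : z 2 ^ 2 - a * z 3 ^ 2 = 0
  · have h0 : z 0 ^ 2 = a * z 1 ^ 2 := by linear_combination h + b * hD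
    by_cases h3 : z 3 = 0
    · have h2 : z 2 = 0 := by
        rw [h3] at hD
        have : z 2 ^ 2 = 0 := by linear_combination hD
        exact pow_eq_zero_iff (two_ne_zero) |>.1 this
      by_cases h1 : z 1 = 0
      · exfalso
        have h00 : z 0 = 0 := by
          rw [h1] at h0
          have : z 0 ^ 2 = 0 := by linear_combination h0
          exact pow_eq_zero_iff (two_ne_zero) |>.1 this
        apply hz
        funext i
        fin_cases i <;> simp [h00, h1, h2, h3]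
      · exact key (z 0 / z 1) (by rw [div_pow, h0]; field_simp)
    · exact key (z 2 / z 3) (by
        rw [div_pow, div_eq_iff (pow_ne_zero 2 h3)]
        linear_combination hD)
  · set D := z 2 ^ 2 - a * z 3 ^ 2 with hDdef
    have h0 : z 0 ^ 2 - a * z 1 ^ 2 = b * D := by rw [hDdef]; linear_combination h
    obtain ⟨β0, hβ0⟩ : ∃ β, β * D = z 0 * z 2 - a * (z 1 * z 3) :=
      ⟨(z 0 * z 2 - a * (z 1 * z 3)) / D, div_mul_cancel₀ _ hD⟩
    obtain ⟨β1, hβ1⟩ : ∃ β, β * D = z 1 * z 2 - z 0 * z 3 :=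
      ⟨(z 1 * z 2 - z 0 * z 3) / D, div_mul_cancel₀ _ hD⟩
    have hβ : β0 ^ 2 - a * β1 ^ 2 = b := by
      have : (β0 ^ 2 - a * β1 ^ 2 - b) * D ^ 2 = 0 := by
        have e1 : β0 ^ 2 * D ^ 2 = (z 0 * z 2 - a * (z 1 * z 3)) ^ 2 := by rw [← hβ0]; ring
        have e2 : β1 ^ 2 * D ^ 2 = (z 1 * z 2 - z 0 * z 3) ^ 2 := by rw [← hβ1]; ring
        have e3 : (z 0 * z 2 - a * (z 1 * z 3)) ^ 2 - a * (z 1 * z 2 - z 0 * z 3) ^ 2 =
            (z 0 ^ 2 - a * z 1 ^ 2) * D := by rw [hDdef]; ring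
        linear_combination e1 - a * e2 + e3 + D * h0
      rcases mul_eq_zero.1 this with h | h
      · linear_combination h
      · exact absurd (pow_eq_zero_iff (two_ne_zero) |>.1 h) hD
    refine ⟨fun x => (![![1, 0, -β0, -(a * β1)], ![0, 1, -β1, -β0]] : Fin 2 → Fin 4 → K) x.1 x.2,
      fun v h1 h2 => ?_⟩
    simp only [Fin.sum_univ_four, Matrix.cons_val] at h1 h2
    have e0 : v 0 = β0 * v 2 + a * β1 * v 3 := by linear_combination h1
    have e1 : v 1 = β1 * v 2 + β0 * v 3 := by linear_combination h2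
    simp only [nf]
    rw [e0, e1, ← hβ]
    ring

variable {L : Type*} [Field L]

theorem plane_poly (a b P : L[X]) (hP : Irreducible P) (z : Fin 4 → L[X])
    (hz : ¬ ∀ i, P ∣ z i) (h : P ∣ nf a b z) :
    ∃ F : Fin 2 × Fin 4 → L[X], ∀ v : Fin 4 → L[X], P ∣ ∑ i, F (0, i) * v i →
      P ∣ ∑ i, F (1, i) * v i → P ∣ nf a b v := by
  haveI : Fact (Irreducible P) := ⟨hP⟩
  have hz' : (fun i => AdjoinRoot.mk P (z i)) ≠ 0 := by
    intro h0
    apply hz
    intro i
    have := congrFun h0 i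
    exact AdjoinRoot.mk_eq_zero.1 this
  have h' : nf (AdjoinRoot.mk P a) (AdjoinRoot.mk P b) (fun i => AdjoinRoot.mk P (z i)) = 0 := by
    rw [← nf_map]
    exact AdjoinRoot.mk_eq_zero.2 h
  obtain ⟨f, hf⟩ := plane_field _ _ _ hz' h'
  have hF : ∀ x, ∃ y : L[X], AdjoinRoot.mk P y = f x := fun x => AdjoinRoot.mk_surjective (f x)
  choose F hF using hF
  refine ⟨F, fun v h1 h2 => ?_⟩
  rw [← AdjoinRoot.mk_eq_zero] at h1 h2 ⊢
  rw [nf_map]
  apply hf
  · simpa only [map_sum, map_mul, hF] using h1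
  · simpa only [map_sum, map_mul, hF] using h2

theorem plane_sqf (a b e : L[X]) (he : Squarefree e)
    (hiso : ∀ P : L[X], Irreducible P → P ∣ e → ∃ z : Fin 4 → L[X], (¬ ∀ i, P ∣ z i) ∧
      P ∣ nf a b z) :
    ∃ F : Fin 2 × Fin 4 → L[X], ∀ v : Fin 4 → L[X], e ∣ ∑ i, F (0, i) * v i →
      e ∣ ∑ i, F (1, i) * v i → e ∣ nf a b v := by
  obtain ⟨F, hF⟩ := crt_prop (ι := Fin 2 × Fin 4) e he.ne_zero
    (fun Q F => ∀ v : Fin 4 → L[X], Q ∣ ∑ i, F (0, i) * v i →
      Q ∣ ∑ i, F (1, i) * v i → Q ∣ nf a b v)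
    (by
      intro Q hQ hQe
      obtain ⟨z, hz, hz2⟩ := hiso Q hQ hQe
      exact plane_poly a b Q hQ z hz hz2)
    (by
      intro Q w w' hw h v h1 h2
      have key : ∀ j, Q ∣ ∑ i, w' (j, i) * v i → Q ∣ ∑ i, w (j, i) * v i := by
        intro j hj
        have e1 : ∑ i, w (j, i) * v i = ∑ i, w' (j, i) * v i -
            ∑ i, (w' (j, i) - w (j, i)) * v i := by
          rw [← Finset.sum_sub_distrib]
          exact Finset.sum_congr rfl fun i _ => by ring
        rw [e1]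
        exact dvd_sub hj (Finset.dvd_sum fun i _ => (hw (j, i)).mul_right _)
      exact h v (key 0 h1) (key 1 h2))
    (by
      intro Q Q' w hQ h v h1 h2
      exact hQ.symm.dvd.trans (h v (hQ.dvd.trans h1) (hQ.dvd.trans h2)))
  refine ⟨F, fun v h1 h2 => dvd_of_sqf he fun Q hQ hQe => ?_⟩
  exact hF Q hQ hQe v (hQe.trans h1) (hQe.trans h2)

theorem parity (a b h e P : L[X]) (hP : Irreducible P) (he : Squarefree e) (heP : P ∣ e)
    (hh : ¬ P ∣ h) : ∀ (n : ℕ) (g : L[X]) (w : Fin 4 → L[X]), g.natDegree ≤ n → g ≠ 0 →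
      nf a b w = h * e * g ^ 2 → ∃ z : Fin 4 → L[X], (¬ ∀ i, P ∣ z i) ∧ P ∣ nf a b z := by
  have hPp : Prime P := hP.prime
  have hPd : 0 < P.natDegree := hP.natDegree_pos
  intro n
  induction n with
  | zero =>
    intro g w hg hg0 hw
    refine ⟨w, fun hall => ?_, by rw [hw]; exact (heP.mul_left h).mul_right _⟩
    choose w' hw' using hall
    have hw2 : w = fun i => P * w' i := funext hw'
    rw [hw2, nf_smul] at hw
    have h1 : P * P ∣ h * e * g ^ 2 := ⟨nf a b w', by rw [← hw]; ring⟩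
    obtain ⟨e', rfl⟩ := heP
    have h2 : P ∣ h * e' * g ^ 2 := by
      obtain ⟨x, hx⟩ := h1
      refine ⟨x, mul_left_cancel₀ hP.ne_zero ?_⟩
      linear_combination hx
    have h3 : ¬ P ∣ e' := fun hd => hP.not_isUnit (he P (mul_dvd_mul_left P hd))
    have h4 : P ∣ g := by
      rcases hPp.dvd_or_dvd h2 with h5 | h5
      · rcases hPp.dvd_or_dvd h5 with h6 | h6
        · exact absurd h6 hh
        · exact absurd h6 h3
      · exact hPp.dvd_of_dvd_pow h5
    have := Polynomial.natDegree_le_of_dvd h4 hg0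
    omega
  | succ n ih =>
    intro g w hg hg0 hw
    by_cases hall : ∀ i, P ∣ w i
    · choose w' hw' using hall
      have hw2 : w = fun i => P * w' i := funext hw'
      rw [hw2, nf_smul] at hw
      have h1 : P * P ∣ h * e * g ^ 2 := ⟨nf a b w', by rw [← hw]; ring⟩
      have heP2 := heP
      obtain ⟨e', he'⟩ := heP
      have h2 : P ∣ h * e' * g ^ 2 := by
        obtain ⟨x, hx⟩ := h1
        refine ⟨x, mul_left_cancel₀ hP.ne_zero ?_⟩
        rw [he'] at hx
        linear_combination hx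
      have h3 : ¬ P ∣ e' := fun hd => hP.not_isUnit (he P (he' ▸ mul_dvd_mul_left P hd))
      have h4 : P ∣ g := by
        rcases hPp.dvd_or_dvd h2 with h5 | h5
        · rcases hPp.dvd_or_dvd h5 with h6 | h6
          · exact absurd h6 hh
          · exact absurd h6 h3
        · exact hPp.dvd_of_dvd_pow h5
      obtain ⟨g', rfl⟩ := h4
      have hg'0 : g' ≠ 0 := right_ne_zero_of_mul hg0
      refine ih g' w' ?_ hg'0 ?_
      · rw [Polynomial.natDegree_mul hP.ne_zero hg'0] at hg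
        omega
      · refine mul_left_cancel₀ (pow_ne_zero 2 hP.ne_zero) ?_
        rw [hw]
        ring
    · exact ⟨w, hall, by rw [hw]; exact (heP.mul_left h).mul_right _⟩

end Pool.C2M
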