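import Mathlib
import Pool.Agent.C2M.Plane

/-!
# The linear space of pairs and the evaluation argument
-/

set_option autoImplicit false

open Polynomial

namespace Pool.C2M

variable {L : Type*} [Field L]

theorem finrank_degreeLT (n : ℕ) : Module.finrank L (degreeLT L n) = n := by
  rw [LinearEquiv.finrank_eq (degreeLTEquiv L n)]
  simp

theorem finiteDim_degreeLT (n : ℕ) : FiniteDimensional L (degreeLT L n) :=
  Module.Finite.equiv (degreeLTEquiv L n).symm

theorem finrank_adjoinRoot (f : L[X]) (hf : f ≠ 0) :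
    Module.finrank L (AdjoinRoot f) = f.natDegree := by
  rw [(AdjoinRoot.powerBasis hf).finrank]
  rfl

theorem finiteDim_adjoinRoot (f : L[X]) (hf : f ≠ 0) : FiniteDimensional L (AdjoinRoot f) :=
  (AdjoinRoot.powerBasis hf).finite

/-- degree bounds for the first vector -/
def mu (α β : ℕ) : Fin 4 → ℕ := ![(α + β) / 2 + 1, β / 2 + 1, α / 2 + 1, 1]

/-- degree bounds for the second vector -/
def mv (α β ε : ℕ) : Fin 4 → ℕ :=
  ![(ε + α + β) / 2 + 1, (ε + β) / 2 + 1, (ε + α) / 2 + 1, ε / 2 + 1]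

/-- A nonzero pair satisfying all linear conditions. -/
theorem exists_pair (a b e γ : L[X]) (c : L) (w0 : Fin 4 → L) (ha : a ≠ 0) (hb : b ≠ 0) (he : e ≠ 0)
    (F : Fin 2 × Fin 4 → L[X]) :
    ∃ u v : Fin 4 → L[X], ¬ (u = 0 ∧ v = 0) ∧
      (∀ i, (u i).degree < mu a.natDegree b.natDegree i) ∧
      (∀ i, (v i).degree < mv a.natDegree b.natDegree e.natDegree i) ∧
      a * b ∣ v 0 - γ * u 0 ∧ b ∣ v 1 - γ * u 1 ∧ a ∣ v 2 - γ * u 2 ∧
      e ∣ ∑ i, F (0, i) * v i ∧ e ∣ ∑ i, F (1, i) * v i ∧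
      (fun i => (v i).eval c) = qm (a.eval c) (b.eval c) w0 (fun i => (u i).eval c) := by
  classical
  set m := mu a.natDegree b.natDegree with hm
  set n := mv a.natDegree b.natDegree e.natDegree with hn
  haveI : ∀ k, FiniteDimensional L (degreeLT L k) := finiteDim_degreeLT
  haveI := finiteDim_adjoinRoot (a * b) (mul_ne_zero ha hb)
  haveI := finiteDim_adjoinRoot a ha
  haveI := finiteDim_adjoinRoot b hb
  haveI := finiteDim_adjoinRoot e he
  let V := ((i : Fin 4) → degreeLT L (m i)) × ((i : Fin 4) → degreeLT L (n i))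
  let T := (AdjoinRoot (a * b) × AdjoinRoot b × AdjoinRoot a) × (AdjoinRoot e × AdjoinRoot e) ×
    (Fin 4 → L)
  let U : Fin 4 → V →ₗ[L] L[X] := fun i =>
    (degreeLT L (m i)).subtype ∘ₗ LinearMap.proj i ∘ₗ LinearMap.fst L _ _
  let W : Fin 4 → V →ₗ[L] L[X] := fun i =>
    (degreeLT L (n i)).subtype ∘ₗ LinearMap.proj i ∘ₗ LinearMap.snd L _ _
  let mk : (f : L[X]) → L[X] →ₗ[L] AdjoinRoot f := fun f => (AdjoinRoot.mkₐ f).toLinearMap
  let evm : V →ₗ[L] (Fin 4 → L) :=
    { toFun := fun x i => (W i x).eval c -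
        qm (a.eval c) (b.eval c) w0 (fun i => (U i x).eval c) i
      map_add' := by
        intro x y
        funext i
        fin_cases i <;>
        · simp only [map_add, eval_add, qm, Pi.add_apply, Fin.zero_eta, Fin.mk_one,
            Fin.reduceFinMk, Matrix.cons_val]
          ring
      map_smul' := by
        intro r x
        funext i
        fin_cases i <;>
        · simp only [map_smul, eval_smul, qm, Pi.smul_apply, smul_eq_mul, RingHom.id_apply,
            Fin.zero_eta, Fin.mk_one, Fin.reduceFinMk, Matrix.cons_val]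
          ring }
  let Ψ : V →ₗ[L] T :=
    ((mk (a * b) ∘ₗ (W 0 - LinearMap.mulLeft L γ ∘ₗ U 0)).prod
      ((mk b ∘ₗ (W 1 - LinearMap.mulLeft L γ ∘ₗ U 1)).prod
        (mk a ∘ₗ (W 2 - LinearMap.mulLeft L γ ∘ₗ U 2)))).prod
    (((mk e ∘ₗ (∑ i, LinearMap.mulLeft L (F (0, i)) ∘ₗ W i)).prod
      (mk e ∘ₗ (∑ i, LinearMap.mulLeft L (F (1, i)) ∘ₗ W i))).prod evm)
  have hV : Module.finrank L V = (∑ i, m i) + ∑ i, n i := by
    rw [Module.finrank_prod, Module.finrank_pi_fintype, Module.finrank_pi_fintype]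
    simp only [finrank_degreeLT]
  have hT : Module.finrank L T = 2 * a.natDegree + 2 * b.natDegree + 2 * e.natDegree + 4 := by
    rw [Module.finrank_prod, Module.finrank_prod, Module.finrank_prod, Module.finrank_prod,
      Module.finrank_prod, finrank_adjoinRoot _ (mul_ne_zero ha hb), finrank_adjoinRoot _ ha,
      finrank_adjoinRoot _ hb, finrank_adjoinRoot _ he, Module.finrank_fin_fun,
      natDegree_mul ha hb]
    ring
  have hlt : Module.finrank L T < Module.finrank L V := by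
    rw [hV, hT, hm, hn, Fin.sum_univ_four, Fin.sum_univ_four]
    simp only [mu, mv, Matrix.cons_val]
    omega
  have hker := LinearMap.ker_ne_bot_of_finrank_lt (f := Ψ) hlt
  obtain ⟨x, hx, hx0⟩ := (Submodule.ne_bot_iff _).1 hker
  rw [LinearMap.mem_ker] at hx
  have e1 : mk (a * b) (W 0 x - γ * U 0 x) = 0 := congrArg (fun t : T => t.1.1) hx
  have e2 : mk b (W 1 x - γ * U 1 x) = 0 := congrArg (fun t : T => t.1.2.1) hx
  have e3 : mk a (W 2 x - γ * U 2 x) = 0 := congrArg (fun t : T => t.1.2.2) hx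
  have e4 : mk e ((∑ i, LinearMap.mulLeft L (F (0, i)) ∘ₗ W i) x) = 0 :=
    congrArg (fun t : T => t.2.1.1) hx
  have e5 : mk e ((∑ i, LinearMap.mulLeft L (F (1, i)) ∘ₗ W i) x) = 0 :=
    congrArg (fun t : T => t.2.1.2) hx
  have e6 : evm x = 0 := congrArg (fun t : T => t.2.2) hx
  refine ⟨fun i => U i x, fun i => W i x, ?_, ?_, ?_, ?_, ?_, ?_, ?_, ?_, ?_⟩
  · rintro ⟨h1, h2⟩
    apply hx0
    refine Prod.ext ?_ ?_
    · funext i
      exact Subtype.ext (congrFun h1 i)
    · funext i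
      exact Subtype.ext (congrFun h2 i)
  · intro i
    exact Polynomial.mem_degreeLT.1 (x.1 i).2
  · intro i
    exact Polynomial.mem_degreeLT.1 (x.2 i).2
  · exact AdjoinRoot.mk_eq_zero.1 e1
  · exact AdjoinRoot.mk_eq_zero.1 e2
  · exact AdjoinRoot.mk_eq_zero.1 e3
  · rw [LinearMap.sum_apply] at e4
    exact AdjoinRoot.mk_eq_zero.1 e4
  · rw [LinearMap.sum_apply] at e5
    exact AdjoinRoot.mk_eq_zero.1 e5
  · funext i
    exact sub_eq_zero.1 (congrFun e6 i)

end Pool.C2M
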