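import Mathlib
import Pool.Agent.C2M.Lin

/-!
# The difference `N(v) - e N(u)` is a constant multiple of `a b e`, hence zero
-/

set_option autoImplicit false

open Polynomial

namespace Pool.C2M

variable {L : Type*} [Field L]

theorem nd_le {p : L[X]} {k : ℕ} (h : p.degree < ((k + 1 : ℕ) : WithBot ℕ)) : p.natDegree ≤ k := by
  by_cases hp : p = 0
  · simp [hp]
  · have := (natDegree_lt_iff_degree_lt hp).2 h
    omega

theorem nd_sq {p q : L[X]} {s t k : ℕ} (hq : q.natDegree ≤ s) (h : p.natDegree ≤ t)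
    (hk : s + 2 * t ≤ k) : (q * p ^ 2).natDegree ≤ k := by
  have h1 : (q * p ^ 2).natDegree ≤ q.natDegree + (p ^ 2).natDegree := natDegree_mul_le
  have h2 : (p ^ 2).natDegree ≤ 2 * p.natDegree := natDegree_pow_le
  omega

theorem nf_eval (a b : L[X]) (c : L) (p : Fin 4 → L[X]) :
    (nf a b p).eval c = nf (a.eval c) (b.eval c) (fun i => (p i).eval c) :=
  nf_map (evalRingHom c) a b p

theorem nd_nf (a b : L[X]) (p : Fin 4 → L[X]) (k t0 t1 t2 t3 : ℕ)
    (h0 : (p 0).natDegree ≤ t0) (h1 : (p 1).natDegree ≤ t1) (h2 : (p 2).natDegree ≤ t2)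
    (h3 : (p 3).natDegree ≤ t3) (k0 : 2 * t0 ≤ k) (k1 : a.natDegree + 2 * t1 ≤ k)
    (k2 : b.natDegree + 2 * t2 ≤ k) (k3 : a.natDegree + b.natDegree + 2 * t3 ≤ k) :
    (nf a b p).natDegree ≤ k := by
  have e0 : (p 0 ^ 2).natDegree ≤ k := by
    have := nd_sq (q := (1 : L[X])) (s := 0) (by simp) h0 (k := k) (by omega)
    rwa [one_mul] at this
  have e1 := nd_sq (q := a) le_rfl h1 k1
  have e2 := nd_sq (q := b) le_rfl h2 k2
  have e3 := nd_sq (q := a * b) (s := a.natDegree + b.natDegree) natDegree_mul_le h3 k3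
  unfold nf
  exact natDegree_add_le_of_le (natDegree_sub_le_of_le (natDegree_sub_le_of_le e0 e1) e2) e3
    |>.trans (by simp)

theorem exists_sol (a b e γ : L[X]) (c : L) (w0 : Fin 4 → L) (he : Squarefree e)
    (hce : IsCoprime (a * b) e) (hc : (a * b * e).eval c ≠ 0) (hγ : a * b ∣ e - γ ^ 2)
    (hiso : ∀ P : L[X], Irreducible P → P ∣ e → ∃ z : Fin 4 → L[X], (¬ ∀ i, P ∣ z i) ∧
      P ∣ nf a b z)
    (hw0 : nf (a.eval c) (b.eval c) w0 = e.eval c) :
    ∃ u v : Fin 4 → L[X], ¬ (u = 0 ∧ v = 0) ∧ nf a b v = e * nf a b u := by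
  have habe : a * b * e ≠ 0 := by
    intro h
    rw [h] at hc
    simp at hc
  have he0 : e ≠ 0 := right_ne_zero_of_mul habe
  have ha : a ≠ 0 := left_ne_zero_of_mul (left_ne_zero_of_mul habe)
  have hb : b ≠ 0 := right_ne_zero_of_mul (left_ne_zero_of_mul habe)
  obtain ⟨F, hF⟩ := plane_sqf a b e he hiso
  obtain ⟨u, v, huv, hu, hv, h1, h2, h3, h4, h5, h6⟩ := exists_pair a b e γ c w0 ha hb he0 F
  refine ⟨u, v, huv, ?_⟩
  have hev : e ∣ nf a b v := hF v h4 h5
  have key : ∀ {d x y : L[X]}, d ∣ a * b → d ∣ y - γ * x → d ∣ y ^ 2 - e * x ^ 2 := by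
    intro d x y hd hxy
    have e1 : y ^ 2 - e * x ^ 2 = (y - γ * x) * (y + γ * x) - (e - γ ^ 2) * x ^ 2 := by ring
    rw [e1]
    exact dvd_sub (hxy.mul_right _) ((hd.trans hγ).mul_right _)
  have k0 : a * b ∣ v 0 ^ 2 - e * u 0 ^ 2 := key dvd_rfl h1
  have k1 : b ∣ v 1 ^ 2 - e * u 1 ^ 2 := key (dvd_mul_left _ _) h2
  have k2 : a ∣ v 2 ^ 2 - e * u 2 ^ 2 := key (dvd_mul_right _ _) h3
  have hab : a * b ∣ nf a b v - e * nf a b u := by
    have e1 : nf a b v - e * nf a b u = (v 0 ^ 2 - e * u 0 ^ 2) - a * (v 1 ^ 2 - e * u 1 ^ 2) -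
        b * (v 2 ^ 2 - e * u 2 ^ 2) + a * b * (v 3 ^ 2 - e * u 3 ^ 2) := by
      simp only [nf]
      ring
    rw [e1]
    refine dvd_add (dvd_sub (dvd_sub k0 (mul_dvd_mul_left a k1)) ?_) (dvd_mul_right _ _)
    rw [mul_comm a b]
    exact mul_dvd_mul_left b k2
  have hdvd : a * b * e ∣ nf a b v - e * nf a b u :=
    hce.mul_dvd hab (dvd_sub hev (dvd_mul_right _ _))
  have hdeg : (nf a b v - e * nf a b u).natDegree ≤ (a * b * e).natDegree := by
    rw [natDegree_mul (mul_ne_zero ha hb) he0, natDegree_mul ha hb]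
    set α := a.natDegree with hα
    set β := b.natDegree with hβ
    set ε := e.natDegree with hε
    have hu0 : (u 0).natDegree ≤ (α + β) / 2 := nd_le (hu 0)
    have hu1 : (u 1).natDegree ≤ β / 2 := nd_le (hu 1)
    have hu2 : (u 2).natDegree ≤ α / 2 := nd_le (hu 2)
    have hu3 : (u 3).natDegree ≤ 0 := nd_le (hu 3)
    have hv0 : (v 0).natDegree ≤ (ε + α + β) / 2 := nd_le (hv 0)
    have hv1 : (v 1).natDegree ≤ (ε + β) / 2 := nd_le (hv 1)
    have hv2 : (v 2).natDegree ≤ (ε + α) / 2 := nd_le (hv 2)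
    have hv3 : (v 3).natDegree ≤ ε / 2 := nd_le (hv 3)
    have d1 : (nf a b v).natDegree ≤ α + β + ε :=
      nd_nf a b v (α + β + ε) _ _ _ _ hv0 hv1 hv2 hv3 (by omega) (by omega) (by omega) (by omega)
    have d2 : (nf a b u).natDegree ≤ α + β :=
      nd_nf a b u (α + β) _ _ _ _ hu0 hu1 hu2 hu3 (by omega) (by omega) (by omega) (by omega)
    have d3 : (e * nf a b u).natDegree ≤ α + β + ε := by
      have : (e * nf a b u).natDegree ≤ e.natDegree + (nf a b u).natDegree := natDegree_mul_le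
      omega
    exact (natDegree_sub_le_of_le d1 d3).trans (by simp)
  obtain ⟨q, hq⟩ := hdvd
  have hqc : q.natDegree = 0 := by
    by_cases hq0 : q = 0
    · simp [hq0]
    · rw [hq, natDegree_mul habe hq0] at hdeg
      omega
  have hev0 : (nf a b v - e * nf a b u).eval c = 0 := by
    rw [eval_sub, eval_mul, nf_eval, nf_eval, h6, nf_qm, hw0, sub_self]
  rw [hq, eval_mul] at hev0
  have hq2 : q.eval c = 0 := (mul_eq_zero.1 hev0).resolve_left hc
  rw [eq_C_of_natDegree_eq_zero hqc, eval_C] at hq2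
  have hq3 : q = 0 := by rw [eq_C_of_natDegree_eq_zero hqc, hq2, map_zero]
  rw [hq3, mul_zero] at hq
  exact sub_eq_zero.1 hq

end Pool.C2M
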