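import Mathlib
import Pool.Agent.C2M.Const

/-!
# Lemma M: local conditions suffice for reduced norms of `(a,b)` over `L(x)`, any field `L`
-/

set_option autoImplicit false

open Polynomial

namespace Pool.C2M

variable {L : Type*} [Field L]

theorem step_one (a b h : L[X]) (c : L) (hh : Squarefree h) (hab : IsCoprime a b)
    (hhab : IsCoprime h (a * b)) (ha : Squarefree a) (hb : Squarefree b)
    (hc : (a * b * h).eval c ≠ 0)
    (hP : ∀ P : L[X], Irreducible P → P ∣ h → ∃ w : Fin 4 → L[X], (¬ ∀ i, P ∣ w i) ∧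
      P ∣ nf a b w)
    (hQa : ∀ Q : L[X], Irreducible Q → Q ∣ a → ∃ u v : L[X], Q ∣ u ^ 2 - b * v ^ 2 - h)
    (hQb : ∀ Q : L[X], Irreducible Q → Q ∣ b → ∃ u v : L[X], Q ∣ u ^ 2 - a * v ^ 2 - h) :
    ∃ w : Fin 4 → L[X], a * b ∣ nf a b w - h ∧ h ∣ nf a b w ∧ (nf a b w).eval c = 1 := by
  have habh0 : a * b * h ≠ 0 := by
    intro h0
    rw [h0] at hc
    simp at hc
  have hm : a * b * h * (X - C c) ≠ 0 := mul_ne_zero habh0 (X_sub_C_ne_zero c)
  have hXc : ∀ Q : L[X], Irreducible Q → Q ∣ X - C c → ¬ Q ∣ a * b * h := by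
    intro Q hQ h1 h2
    have h3 : X - C c ∣ a * b * h :=
      (hQ.dvd_symm (irreducible_X_sub_C c) h1).trans h2
    exact hc (dvd_iff_isRoot.1 h3)
  have hcop : ∀ Q : L[X], Irreducible Q → Q ∣ h → ¬ Q ∣ a * b := by
    intro Q hQ h1 h2
    exact hQ.not_isUnit (hhab.isUnit_of_dvd' h1 h2)
  have hcop2 : ∀ Q : L[X], Irreducible Q → Q ∣ a → ¬ Q ∣ b := by
    intro Q hQ h1 h2
    exact hQ.not_isUnit (hab.isUnit_of_dvd' h1 h2)
  obtain ⟨w, hw⟩ := crt_prop (ι := Fin 4) (a * b * h * (X - C c)) hm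
    (fun Q w => (Q ∣ a * b → Q ∣ nf a b w - h) ∧ (Q ∣ h → Q ∣ nf a b w) ∧
      (Q ∣ X - C c → Q ∣ nf a b w - 1))
    (by
      intro Q hQ hQm
      rcases hQ.prime.dvd_or_dvd hQm with h1 | h1
      · rcases hQ.prime.dvd_or_dvd h1 with h2 | h2
        · have n1 : ¬ Q ∣ h := fun h3 => hcop Q hQ h3 h2
          have n2 : ¬ Q ∣ X - C c := fun h3 => hXc Q hQ h3 h1
          rcases hQ.prime.dvd_or_dvd h2 with h3 | h3
          · obtain ⟨u, v, huv⟩ := hQa Q hQ h3
            refine ⟨![u, 0, v, 0], fun _ => ?_, fun h => absurd h n1, fun h => absurd h n2⟩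
            simp only [nf, Matrix.cons_val]
            have e1 : u ^ 2 - a * 0 ^ 2 - b * v ^ 2 + a * b * 0 ^ 2 - h = u ^ 2 - b * v ^ 2 - h := by
              ring
            rw [e1]
            exact huv
          · obtain ⟨u, v, huv⟩ := hQb Q hQ h3
            refine ⟨![u, v, 0, 0], fun _ => ?_, fun h => absurd h n1, fun h => absurd h n2⟩
            simp only [nf, Matrix.cons_val]
            have e1 : u ^ 2 - a * v ^ 2 - b * 0 ^ 2 + a * b * 0 ^ 2 - h = u ^ 2 - a * v ^ 2 - h := by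
              ring
            rw [e1]
            exact huv
        · have n1 : ¬ Q ∣ a * b := hcop Q hQ h2
          have n2 : ¬ Q ∣ X - C c := fun h3 => hXc Q hQ h3 h1
          obtain ⟨w, _, hw2⟩ := hP Q hQ h2
          exact ⟨w, fun h => absurd h n1, fun _ => hw2, fun h => absurd h n2⟩
      · have n1 : ¬ Q ∣ a * b * h := hXc Q hQ h1
        refine ⟨![1, 0, 0, 0], fun h => absurd (h.mul_right _) n1,
          fun h => absurd (h.mul_left _) n1, fun _ => ?_⟩
        simp [nf])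
    (by
      intro Q w w' hww ⟨h1, h2, h3⟩
      have hd := nf_congr a b Q w' w hww
      refine ⟨fun k => ?_, fun k => ?_, fun k => ?_⟩
      · have e1 : nf a b w' - h = (nf a b w' - nf a b w) + (nf a b w - h) := by ring
        rw [e1]
        exact dvd_add hd (h1 k)
      · have e1 : nf a b w' = (nf a b w' - nf a b w) + nf a b w := by ring
        rw [e1]
        exact dvd_add hd (h2 k)
      · have e1 : nf a b w' - 1 = (nf a b w' - nf a b w) + (nf a b w - 1) := by ring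
        rw [e1]
        exact dvd_add hd (h3 k))
    (by
      intro Q Q' w hQQ ⟨h1, h2, h3⟩
      exact ⟨fun h => hQQ.symm.dvd.trans (h1 (hQQ.dvd.trans h)),
        fun h => hQQ.symm.dvd.trans (h2 (hQQ.dvd.trans h)),
        fun h => hQQ.symm.dvd.trans (h3 (hQQ.dvd.trans h))⟩)
  have habs : Squarefree (a * b) := by
    rw [squarefree_mul_iff]
    exact ⟨hab.isRelPrime, ha, hb⟩
  refine ⟨w, ?_, ?_, ?_⟩
  · refine dvd_of_sqf habs fun Q hQ hQab => ?_
    exact (hw Q hQ ((hQab.mul_right h).mul_right _)).1 hQab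
  · refine dvd_of_sqf hh fun Q hQ hQh => ?_
    exact (hw Q hQ ((hQh.mul_left _).mul_right _)).2.1 hQh
  · have := (hw (X - C c) (irreducible_X_sub_C c) (dvd_mul_left _ _)).2.2 dvd_rfl
    have h3 := dvd_iff_isRoot.1 this
    rw [IsRoot, eval_sub, eval_one] at h3
    exact sub_eq_zero.1 h3

/-- **Lemma M.** `L` any field, `a, b` squarefree and coprime in `L[X]`, the norm form `N = <1,-a,-b,ab>` anisotropic;
`h` squarefree and coprime to `ab`, `N` isotropic modulo every prime factor of `h`, `h` a norm from `K_Q(sqrt b)` modulo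
every prime `Q` of `a`, from `K_Q(sqrt a)` modulo every prime `Q` of `b`, and `h(c)` a reduced norm from `(a(c),b(c))`
for one `c` with `(abh)(c) <> 0`.  Then `h` is a reduced norm from `(a,b)` over `L(X)`. -/
theorem lemmaM (a b h : L[X]) (ha : Squarefree a) (hb : Squarefree b) (hh : Squarefree h)
    (hab : IsCoprime a b) (hhab : IsCoprime h (a * b)) (c : L) (hc : (a * b * h).eval c ≠ 0)
    (hN : ∀ p : Fin 4 → L[X], nf a b p = 0 → p = 0)
    (hP : ∀ P : L[X], Irreducible P → P ∣ h → ∃ w : Fin 4 → L[X], (¬ ∀ i, P ∣ w i) ∧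
      P ∣ nf a b w)
    (hQa : ∀ Q : L[X], Irreducible Q → Q ∣ a → ∃ u v : L[X], Q ∣ u ^ 2 - b * v ^ 2 - h)
    (hQb : ∀ Q : L[X], Irreducible Q → Q ∣ b → ∃ u v : L[X], Q ∣ u ^ 2 - a * v ^ 2 - h)
    (hcn : ∃ w : Fin 4 → L, nf (a.eval c) (b.eval c) w = h.eval c) :
    ∃ (v : Fin 4 → L[X]) (g : L[X]), g ≠ 0 ∧ nf a b v = h * g ^ 2 := by
  obtain ⟨w, hw1, hw2, hw3⟩ := step_one a b h c hh hab hhab ha hb hc hP hQa hQb
  obtain ⟨N', hN'⟩ := hw2
  have hN'0 : N' ≠ 0 := by
    rintro rfl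
    rw [hN', mul_zero, eval_zero] at hw3
    exact zero_ne_one hw3
  obtain ⟨e, g, he, hg, heg⟩ := exists_sqf_part N' hN'0
  have hw : nf a b w = h * e * g ^ 2 := by rw [hN', heg]; ring
  have hh0 : h ≠ 0 := hh.ne_zero
  -- values at `c`
  have hcc : h.eval c * e.eval c * g.eval c ^ 2 = 1 := by
    rw [← hw3, hw, eval_mul, eval_mul, eval_pow]
  have hce0 : e.eval c ≠ 0 := by
    intro h0
    rw [h0] at hcc
    simp at hcc
  have habc : (a * b).eval c ≠ 0 := by
    rw [eval_mul] at hc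
    exact left_ne_zero_of_mul hc
  have habec : (a * b * e).eval c ≠ 0 := by
    rw [eval_mul]
    exact mul_ne_zero habc hce0
  -- `g` and `e` are invertible modulo `a b`
  have hmod : a * b ∣ h * (e * g ^ 2 - 1) := by
    have e1 : h * (e * g ^ 2 - 1) = nf a b w - h := by rw [hw]; ring
    rw [e1]
    exact hw1
  have hmod2 : a * b ∣ e * g ^ 2 - 1 := hhab.symm.dvd_of_dvd_mul_left hmod
  have hunit : IsCoprime (a * b) (e * g ^ 2) := by
    obtain ⟨x, hx⟩ := hmod2
    exact ⟨-x, 1, by linear_combination hx⟩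
  have hcop_e : IsCoprime (a * b) e := IsCoprime.of_mul_right_left hunit
  have hcop_g : IsCoprime (a * b) g := by
    have := IsCoprime.of_mul_right_right hunit
    exact (IsCoprime.pow_right_iff (by norm_num)).1 this
  obtain ⟨s, γ, hγ⟩ := hcop_g
  have hγ2 : a * b ∣ e - γ ^ 2 := by
    obtain ⟨x, hx⟩ := hmod2
    -- `γ g = 1 - s a b`
    have e1 : γ * g = 1 - s * (a * b) := by linear_combination hγ
    have e2 : e - γ ^ 2 = e * (1 - (γ * g) ^ 2) + γ ^ 2 * (e * g ^ 2 - 1) := by ring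
    rw [e2, hx, e1]
    refine dvd_add ?_ ((dvd_mul_right _ _).mul_left _)
    refine Dvd.dvd.mul_left ⟨s * (2 - s * (a * b)), by ring⟩ _
  -- isotropy at the primes of `e`
  have hiso : ∀ P : L[X], Irreducible P → P ∣ e → ∃ z : Fin 4 → L[X], (¬ ∀ i, P ∣ z i) ∧
      P ∣ nf a b z := by
    intro P hPi hPe
    by_cases hPh : P ∣ h
    · exact hP P hPi hPh
    · exact parity a b h e P hPi he hPe hPh g.natDegree g w le_rfl hg hw
  -- the multiplier at `c`
  obtain ⟨w', hw'⟩ := hcn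
  have hhc : h.eval c ≠ 0 := by
    rw [eval_mul] at hc
    exact right_ne_zero_of_mul hc
  have hgc : g.eval c ≠ 0 := by
    intro h0
    rw [h0] at hcc
    simp at hcc
  have hw0 : nf (a.eval c) (b.eval c) (fun i => (h.eval c * g.eval c)⁻¹ * w' i) = e.eval c := by
    rw [nf_smul, hw']
    field_simp
    linear_combination -hcc
  obtain ⟨u, v, huv, hfin⟩ := exists_sol a b e γ c _ he hcop_e habec hγ2 hiso hw0
  have hu0 : u ≠ 0 := by
    rintro rfl
    rw [nf_zero, mul_zero] at hfin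
    exact huv ⟨rfl, hN v hfin⟩
  have hnu : nf a b u ≠ 0 := fun h0 => hu0 (hN u h0)
  refine ⟨qm a b w (qm a b v u), e * g * nf a b u, mul_ne_zero (mul_ne_zero he.ne_zero hg) hnu, ?_⟩
  rw [nf_qm, nf_qm, hw, hfin]
  ring

end Pool.C2M
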